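import Pool.Agent.H3Z.RModel

namespace Pool.Agent.Results.MP_4faeaf_lc.APrecipitousNoChoose

open Pool.Agent.H3Z

/-- If there is a measurable cardinal, then there is a countable transitive model of ZFC + CH with
a precipitous ideal on `ω₂` in which Choose has no winning strategy in `U(ω₂, ω)`. -/
theorem result (h : ∃ μ : Cardinal.{0}, IsMeasurableCardinal μ) :
    ∃ W : Set ZFSet.{0}, CohenE.CTM W ∧ ∃ w₁ w₂ I : ZFSet.{0},
      IsSuccIn W ZFSet.omega w₁ ∧ IsSuccIn W w₁ w₂ ∧ CHIn W w₁ ∧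
      IsIdeal W w₂ I ∧ Precipitous W w₂ I ∧ ¬ WinsTwo W w₂ ZFSet.omega :=
  precip_model h

end Pool.Agent.Results.MP_4faeaf_lc.APrecipitousNoChoose
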